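import Pool.Agent.Lib.MP_cc859a_an.Lp.Typ

/-! An explicit distribution on pairs `(x, t)` with `x + t` even, close to a discrete Gaussian. All
entropies are bounded through integer powers of `999 / 1000`. -/

namespace Pool.Agent.Lib.MP_cc859a_an.Lp

open Finset

theorem exp_L (k : ℕ) : Real.exp (-(-Real.log (999 / 1000) * k)) = (999 / 1000) ^ k := by
  rw [neg_mul, neg_neg, mul_comm, Real.exp_nat_mul, Real.exp_log (by norm_num)]

theorem L_pos : 0 < -Real.log (999 / 1000) := neg_pos.2 (Real.log_neg (by norm_num) (by norm_num))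

theorem le_exp_L {W D k : ℕ} (hD : 0 < D) (h : W * 1000 ^ k ≤ D * 999 ^ k) :
    (W : ℝ) / D ≤ Real.exp (-(-Real.log (999 / 1000) * k)) := by
  rw [exp_L, div_pow, div_le_div_iff₀ (Nat.cast_pos.2 hD) (by positivity), mul_comm _ (D : ℝ)]
  exact_mod_cast h

theorem mean_L {ι : Type} [Fintype ι] (W k : ι → ℕ) (D : ℕ) :
    ∑ s, (W s : ℝ) / D * (-Real.log (999 / 1000) * k s) =
      -Real.log (999 / 1000) * ((∑ s, W s * k s : ℕ) / D) := by
  push_cast
  rw [sum_div, mul_sum]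
  exact sum_congr rfl fun s _ => by ring

/-- The data from integer tables. -/
noncomputable def mkData {ι : Type} [Fintype ι] (x t : ι → ℤ) (W k : ι → ℕ) (k₀ : ℤ → ℕ)
    (V : Fin 4 → Finset ℤ) (κ : Fin 4 → ℤ → ℕ) (A : Fin 4 → ℕ) (b b₀ D : ℕ) (p : ℝ) (hD : 0 < D)
    (inj : ∀ s s', x s = x s' → t s = t s' → s = s') (c1 : ∑ s, W s = D)
    (c2 : ∀ s, W s * 1000 ^ k s ≤ D * 999 ^ k s)
    (c3 : ∀ v ∈ V 0, (∑ s with x s = v, W s) * 1000 ^ k₀ v ≤ D * 999 ^ k₀ v)
    (c4 : ∀ j s, x s + (j : ℕ) * t s ∈ V j) (c5 : ∀ j, ∑ v ∈ V j, (999 / 1000 : ℚ) ^ κ j v ≤ 1)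
    (c6 : ∀ j, (∑ s, W s * κ j (x s + (j : ℕ) * t s)) * 1000 < A j * D)
    (c7 : b * D < (∑ s, W s * k s) * 1000) (c8 : b₀ * D < (∑ s, W s * k₀ (x s)) * 1000)
    (gap : (A 1 : ℝ) + A 2 + A 3 < (3 - p) * b₀ + p * (b - A 0)) (pos : 0 < b₀)
    (fib : (b : ℝ) - A 0 ≤ b₀) : Data ι p where
  x := x
  t := t
  w s := W s / D
  h s := -Real.log (999 / 1000) * k s
  h₀ v := -Real.log (999 / 1000) * k₀ v
  V := V
  κ j v := -Real.log (999 / 1000) * κ j v
  α j := -Real.log (999 / 1000) * (A j / 1000)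
  β := -Real.log (999 / 1000) * (b / 1000)
  β₀ := -Real.log (999 / 1000) * (b₀ / 1000)
  inj := inj
  w0 s := by positivity
  w1 := by rw [← sum_div, ← Nat.cast_sum, c1, div_self (Nat.cast_pos.2 hD).ne']
  wh s := le_exp_L hD (c2 s)
  wh₀ v hv := by
    rw [← sum_div, ← Nat.cast_sum]
    exact le_exp_L hD (c3 v hv)
  mem := c4
  kr j := by
    simp only [exp_L]
    have := (Rat.cast_le (K := ℝ)).2 (c5 j)
    push_cast at this
    exact this
  hα j := by
    rw [mean_L W (fun s => κ j (x s + (j : ℕ) * t s)) D]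
    refine mul_lt_mul_of_pos_left ?_ L_pos
    rw [div_lt_div_iff₀ (Nat.cast_pos.2 hD) (by norm_num)]
    exact_mod_cast c6 j
  hβ := by
    rw [mean_L W k D]
    refine mul_lt_mul_of_pos_left ?_ L_pos
    rw [div_lt_div_iff₀ (by norm_num) (Nat.cast_pos.2 hD)]
    exact_mod_cast c7
  hβ₀ := by
    rw [mean_L W (fun s => k₀ (x s)) D]
    refine mul_lt_mul_of_pos_left ?_ L_pos
    rw [div_lt_div_iff₀ (by norm_num) (Nat.cast_pos.2 hD)]
    exact_mod_cast c8
  gap := by nlinarith [mul_lt_mul_of_pos_left gap L_pos]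
  pos := mul_pos L_pos (by positivity)
  fib := by nlinarith [mul_le_mul_of_nonneg_left fib L_pos.le]

def tW : List (List ℕ) :=
  [[47987, 190113, 496758, 869034, 1002703, 762282, 387990, 135023, 32581, 5473, 0, 0, 0, 0, 0],
  [117141, 558448, 1750634, 3696372, 5168174, 4727871, 2861150, 1151158, 304862, 53570, 6384, 0,
  0, 0, 0], [206162, 1185047, 4456864, 11301222, 19128398, 21141207, 15441628, 7536125, 2435478,
  516524, 72322, 6752, 0, 0, 0], [256665, 1786017, 8066682, 24539857, 50181999, 67007260,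
  58893836, 34760189, 13680978, 3530109, 597166, 66893, 4986, 0, 0], [226265, 1909844, 10400660,
  37959385, 93407074, 150687212, 159370912, 113416190, 54200758, 16998328, 3484492, 472519, 42430,
  2525, 0], [141100, 1447565, 9524099, 41827972, 123854585, 241155367, 306912283, 262298569,
  151594508, 57727082, 14354026, 2358739, 257436, 18438, 0], [62181, 775359, 6194180, 32767698,
  116871981, 274652441, 421036736, 431700732, 300832002, 138957165, 41786144, 8312474, 1104892,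
  96185, 5407], [19307, 293195, 2852575, 18231484, 78325954, 222828379, 411870542, 507153315,
  424420238, 237088360, 86222146, 20701653, 3337763, 354580, 24181], [4253, 78114, 927428,
  7204355, 37319212, 128268496, 287013273, 424845083, 426975696, 287588161, 126357878, 36543296,
  7125502, 921877, 76490], [0, 14736, 212444, 2009824, 12603384, 52388017, 142191853, 253779789,
  305992466, 248254868, 131780703, 45860828, 10771318, 1690392, 170813], [0, 1990, 34424, 395832,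
  3010931, 15150862, 49931590, 107882118, 156213593, 152507267, 97708602, 40958313, 11564295,
  2194800, 269292], [0, 0, 3989, 55091, 507305, 3093375, 12390832, 32506472, 56810344, 66672893,
  51556066, 26058100, 8826753, 2015865, 300020], [0, 0, 0, 5478, 60464, 444988, 2168607, 6928658,
  14629499, 20680952, 19340078, 11798027, 4794560, 1316314, 236685], [0, 0, 0, 0, 5274, 45508,
  266611, 1039476, 2667625, 4546945, 5132106, 3789994, 1853372, 609845, 132216], [0, 0, 0, 0, 0,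
  4626, 28294, 120469, 356002, 720748, 978913, 876018, 517041, 204109, 53249]]

def tK : List (List ℕ) :=
  [[12241, 10865, 9905, 9346, 9203, 9477, 10152, 11207, 12628, 14411, 0, 0, 0, 0, 0], [11349,
  9788, 8646, 7899, 7564, 7653, 8155, 9065, 10393, 12131, 14257, 0, 0, 0, 0], [10784, 9036, 7712,
  6782, 6256, 6156, 6470, 7187, 8316, 9866, 11831, 14201, 0, 0, 0], [10565, 8626, 7119, 6007,
  5292, 5003, 5132, 5659, 6591, 7945, 9721, 11909, 14504, 0, 0], [10691, 8559, 6865, 5571, 4671,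
  4193, 4137, 4477, 5215, 6374, 7958, 9955, 12364, 15184, 0], [11163, 8836, 6953, 5474, 4389,
  3723, 3482, 3639, 4187, 5152, 6543, 8348, 10562, 13197, 0], [11982, 9460, 7383, 5718, 4447,
  3593, 3166, 3141, 3502, 4274, 5475, 7089, 9106, 11546, 14423], [13151, 10432, 8158, 6304, 4847,
  3802, 3188, 2980, 3158, 3740, 4751, 6177, 8001, 10242, 12926], [14663, 11754, 9281, 7232, 5588,
  4354, 3549, 3157, 3152, 3547, 4369, 5609, 7243, 9287, 11775], [0, 13421, 10754, 8508, 6673,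
  5249, 4251, 3672, 3485, 3694, 4327, 5382, 6830, 8681, 10972], [0, 15422, 12573, 10132, 8104,
  6489, 5297, 4527, 4157, 4181, 4626, 5495, 6759, 8420, 10517], [0, 0, 14727, 12103, 9884, 8077,
  6690, 5726, 5168, 5008, 5265, 5947, 7029, 8505, 10409], [0, 0, 0, 14410, 12010, 10015, 8432,
  7271, 6524, 6178, 6245, 6739, 7639, 8931, 10646], [0, 0, 0, 0, 14448, 12294, 10527, 9167, 8225,
  7692, 7571, 7874, 8589, 9700, 11228], [0, 0, 0, 0, 0, 14579, 12769, 11321, 10238, 9533, 9227,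
  9338, 9865, 10794, 12137]]

def tH : List ℕ :=
  [0, 0, 0, 0, 0, 0, 0, 0, 0, 0, 0, 0, 0, 0, 0, 0, 0, 0, 0, 14411, 12628, 11207, 10135, 9409,
  8937, 8499, 7973, 7513, 7171, 6782, 6328, 5979, 5711, 5367, 5005, 4762, 4555, 4264, 4005, 3859,
  3701, 3476, 3325, 3262, 3149, 3005, 2961, 2966, 2901, 2851, 2908, 2968, 2962, 3016, 3163, 3271,
  3336, 3498, 3723, 3875, 4028, 4295, 4583, 4787, 5039, 5407, 5744, 6013, 6374, 6829, 7210, 7558,
  8029, 8553, 8986, 9471, 10223, 11321, 12769, 14579, 0, 0, 0, 0, 0]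

def tC : List (List ℕ) :=
  [[0, 0, 0, 0, 0, 0, 0, 0, 0, 0, 0, 0, 0, 0, 21988, 21988, 21988, 21988, 21988, 14411, 12628,
  11206, 10138, 9408, 8937, 8499, 7975, 7515, 7166, 6782, 6329, 5979, 5712, 5367, 5006, 4763,
  4556, 4264, 4005, 3860, 3702, 3477, 3325, 3262, 3149, 3006, 2961, 2966, 2902, 2852, 2909, 2969,
  2962, 3017, 3164, 3271, 3337, 3498, 3723, 3876, 4028, 4296, 4584, 4787, 5039, 5408, 5745, 6013,
  6374, 6830, 7212, 7559, 8029, 8553, 8987, 9472, 10223, 11322, 12769, 14579, 21988, 21988, 21988,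
  21988, 21988], [0, 0, 0, 0, 0, 0, 0, 0, 0, 0, 0, 0, 0, 0, 0, 0, 0, 0, 0, 0, 0, 0, 0, 0, 0, 0, 0,
  0, 7836, 0, 6182, 0, 4780, 0, 3634, 0, 2743, 0, 2108, 0, 1728, 0, 1602, 0, 1730, 0, 2113, 0,
  2751, 0, 3645, 0, 4797, 0, 6210, 0, 7862, 0, 0, 0, 0, 0, 0, 0, 0, 0, 0, 0, 0, 0, 0, 0, 0, 0, 0,
  0, 0, 0, 0, 0, 0, 0, 0, 0, 0], [0, 0, 0, 0, 0, 0, 0, 0, 0, 0, 0, 0, 0, 0, 0, 0, 0, 0, 0, 0, 0,
  0, 0, 0, 0, 0, 0, 0, 9136, 7097, 5393, 4006, 2915, 2134, 1676, 1520, 1654, 2090, 2847, 3921,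
  5291, 6966, 8969, 0, 0, 0, 0, 0, 0, 0, 0, 0, 0, 0, 0, 0, 0, 0, 0, 0, 0, 0, 0, 0, 0, 0, 0, 0, 0,
  0, 0, 0, 0, 0, 0, 0, 0, 0, 0, 0, 0, 0, 0, 0, 0], [21988, 0, 21988, 0, 21988, 0, 21988, 0, 21988,
  0, 13050, 0, 10622, 0, 8492, 0, 6646, 0, 5091, 0, 3823, 0, 2841, 0, 2136, 0, 1712, 0, 1559, 0,
  1688, 0, 2089, 0, 2768, 0, 3731, 0, 4974, 0, 6505, 0, 8327, 0, 10435, 0, 12849, 0, 21988, 0,
  21988, 0, 21988, 0, 21988, 0, 21988, 0, 0, 0, 0, 0, 0, 0, 0, 0, 0, 0, 0, 0, 0, 0, 0, 0, 0, 0, 0,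
  0, 0, 0, 0, 0, 0, 0, 0]]


def cx (s : Fin 15 × Fin 15) : ℤ := 4 * (s.1 : ℕ) - (s.2 : ℕ)

def ct (s : Fin 15 × Fin 15) : ℤ := (s.2 : ℕ) - 2 * (s.1 : ℕ)

def cW (s : Fin 15 × Fin 15) : ℕ := (tW.getD s.1 []).getD s.2 0

def cK (s : Fin 15 × Fin 15) : ℕ := (tK.getD s.1 []).getD s.2 0

def cH (v : ℤ) : ℕ := tH.getD (v + 28).toNat 0

def cC (j : Fin 4) (v : ℤ) : ℕ := (tC.getD j []).getD (v + 28).toNat 0

noncomputable def cV (j : Fin 4) : Finset ℤ := (Icc (-28) 56).filter fun v => cC j v ≠ 0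

def cA (j : Fin 4) : ℕ := [3388076, 2099864, 2010530, 2059004].getD j 0

/-- The data for the exponent `1421 / 1000`. -/
noncomputable def data : Data (Fin 15 × Fin 15) (1421 / 1000) :=
  mkData cx ct cW cK cH cV cC cA 3966403 3387520 10000000000 _ (by norm_num)
    (fun s s' h h' => by
      simp only [cx, ct] at h h'
      exact Prod.ext (Fin.ext (by omega)) (Fin.ext (by omega)))
    (by decide +kernel) (by decide +kernel) (by decide +kernel) (by decide +kernel)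
    (by decide +kernel) (by decide +kernel) (by decide +kernel) (by decide +kernel)
    (by norm_num [cA]) (by norm_num) (by norm_num [cA])

end Pool.Agent.Lib.MP_cc859a_an.Lp
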