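import Mathlib

/-! An approximate cyclic factor of an ergodic map of a space without atoms. -/

namespace Pool.Agent.Lib.MP_cc859a_an.Lp

open MeasureTheory Set Filter
open scoped ENNReal

variable {X : Type*} [MeasurableSpace X] {μ : Measure X} [IsProbabilityMeasure μ] {T : X → X}

theorem clock (hT : Ergodic T μ) {B : Set X} (hB : MeasurableSet B) (h0 : 0 < μ B) (P : ℕ) :
    ∃ (S : X → ZMod (P + 1)) (E : Set X), (∀ y, MeasurableSet (S ⁻¹' {y})) ∧ MeasurableSet E ∧
      μ E ≤ μ B ∧ ∀ x ∉ E, S (T x) = S x + 1 := by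
  classical
  have hm : ∀ k, MeasurableSet (T^[k] ⁻¹' B) := fun k => (hT.measurable.iterate k) hB
  have hU : MeasurableSet (⋃ k, T^[k] ⁻¹' B) := MeasurableSet.iUnion hm
  have h1 : μ (⋃ k, T^[k] ⁻¹' B)ᶜ = 0 := by
    rcases hT.ae_empty_or_univ_of_preimage_ae_le hU.nullMeasurableSet
      (LE.le.eventuallyLE fun x hx => by
        obtain ⟨k, hk⟩ := mem_iUnion.1 (show T x ∈ ⋃ k, T^[k] ⁻¹' B from hx)
        exact mem_iUnion.2 ⟨k + 1, hk⟩) with h | h
    · have h2 : μ B ≤ μ (⋃ k, T^[k] ⁻¹' B) := measure_mono (subset_iUnion (fun k => T^[k] ⁻¹' B) 0)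
      rw [measure_congr h, measure_empty] at h2
      exact absurd h0 (not_lt.2 h2)
    · exact ae_eq_univ.1 h
  have hp : ∀ x, ∃ k, T^[k] x ∈ B ∨ x ∉ ⋃ k, T^[k] ⁻¹' B := fun x => by
    by_cases hx : x ∈ ⋃ k, T^[k] ⁻¹' B
    · obtain ⟨k, hk⟩ := mem_iUnion.1 hx
      exact ⟨k, Or.inl hk⟩
    · exact ⟨0, Or.inr hx⟩
  have hσ : Measurable fun x => Nat.find (hp x) :=
    measurable_find hp fun k => (hm k).union hU.compl
  refine ⟨fun x => -(Nat.find (hp x) : ZMod (P + 1)), B ∪ (⋃ k, T^[k] ⁻¹' B)ᶜ,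
    fun y => hσ (MeasurableSet.of_discrete (s := {k : ℕ | -(k : ZMod (P + 1)) = y})),
    hB.union hU.compl, (measure_union_le _ _).trans (by rw [h1, add_zero]), fun x hx => ?_⟩
  rw [mem_union, not_or, mem_compl_iff, not_not] at hx
  have h2 : T x ∈ ⋃ k, T^[k] ⁻¹' B := by
    obtain ⟨k, hk⟩ := mem_iUnion.1 hx.2
    cases k with
    | zero => exact absurd hk hx.1
    | succ k => exact mem_iUnion.2 ⟨k, hk⟩
  have h3 : Nat.find (hp x) = Nat.find (hp (T x)) + 1 := by
    rw [Nat.find_eq_iff]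
    refine ⟨Or.inl ((Nat.find_spec (hp (T x))).resolve_right (not_not.2 h2)), fun k hk h => ?_⟩
    have h := h.resolve_right (not_not.2 hx.2)
    cases k with
    | zero => exact hx.1 h
    | succ k => exact Nat.find_min (hp (T x)) (by omega : k < _) (Or.inl h)
  simp only [h3]
  push_cast
  ring

theorem clock_le (hT : MeasurePreserving T μ μ) {P : ℕ} {S : X → ZMod (P + 1)} {E : Set X}
    (hS : ∀ y, MeasurableSet (S ⁻¹' {y})) (hE : μ.real E * ((P : ℝ) + 1) ^ 2 ≤ 1)
    (h : ∀ x ∉ E, S (T x) = S x + 1) (y : ZMod (P + 1)) :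
    μ.real (S ⁻¹' {y}) * ((P : ℝ) + 1) ≤ 2 := by
  have h1 : ∀ z, μ.real (S ⁻¹' {z + 1}) ≤ μ.real (S ⁻¹' {z}) + μ.real E := fun z => by
    rw [← hT.measureReal_preimage (hS _).nullMeasurableSet]
    refine (measureReal_mono fun x hx => ?_).trans (measureReal_union_le _ _)
    by_cases hx' : x ∈ E
    · exact Or.inr hx'
    · exact Or.inl (add_right_cancel ((h x hx').symm.trans hx))
  have h2 : ∀ (k : ℕ) (z : ZMod (P + 1)),
      μ.real (S ⁻¹' {z + (k : ZMod (P + 1))}) ≤ μ.real (S ⁻¹' {z}) + k * μ.real E := fun k z => by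
    induction k with
    | zero => simp
    | succ k ih =>
      have := h1 (z + k)
      push_cast
      rw [← add_assoc]
      linarith
  have h3 : ∀ z, μ.real (S ⁻¹' {y}) ≤ μ.real (S ⁻¹' {z}) + (P + 1) * μ.real E := fun z => by
    have := h2 (y - z).val z
    rw [ZMod.natCast_zmod_val, add_sub_cancel] at this
    have h4 : ((y - z).val : ℝ) ≤ P + 1 := by exact_mod_cast (ZMod.val_lt (y - z)).le
    nlinarith [measureReal_nonneg (μ := μ) (s := E)]
  have h4 := Finset.sum_le_sum fun z (_ : z ∈ Finset.univ) => h3 z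
  rw [Finset.sum_add_distrib, sum_measureReal_preimage_singleton _ fun z _ => hS z] at h4
  simp only [Finset.sum_const, Finset.card_univ, ZMod.card, nsmul_eq_mul, Finset.coe_univ,
    preimage_univ, probReal_univ] at h4
  push_cast at h4
  nlinarith

omit [MeasurableSpace X] in
theorem clock_iter {P : ℕ} {S : X → ZMod (P + 1)} {E : Set X} (h : ∀ x ∉ E, S (T x) = S x + 1)
    {x : X} {L : ℕ} (hx : ∀ i < L, T^[i] x ∉ E) : ∀ i ≤ L, S (T^[i] x) = S x + i := fun i hi => by
  induction i with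
  | zero => simp
  | succ i ih =>
    rw [Function.iterate_succ_apply', h _ (hx i hi), ih (by omega)]
    push_cast
    ring

end Pool.Agent.Lib.MP_cc859a_an.Lp
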