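import Mathlib

/-! Random linear projection to a prime field and covering by translates. -/

namespace Pool.Agent.Lib.MP_cc859a_an.Lp

open Finset

theorem card_ker {F : Type} [Field F] [Fintype F] [DecidableEq F] {n : ℕ} {v : Fin n → F}
    (hv : v ≠ 0) : (univ.filter fun r : Fin n → F => ∑ i, r i * v i = 0).card * Fintype.card F ≤
      Fintype.card (Fin n → F) := by
  obtain ⟨i₀, hi⟩ := Function.ne_iff.1 hv
  rw [← card_univ (α := F), ← card_product, ← card_univ]
  refine card_le_card_of_injOn (fun z => z.1 + Pi.single i₀ z.2) (fun _ _ => mem_univ _) ?_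
  rintro ⟨r, c⟩ h ⟨r', c'⟩ h' e
  have h1 := (mem_filter.1 (mem_product.1 h).1).2
  have h2 := (mem_filter.1 (mem_product.1 h').1).2
  have key : ∀ (r : Fin n → F) (c : F), ∑ i, (r + Pi.single i₀ c : Fin n → F) i * v i =
      ∑ i, r i * v i + c * v i₀ := fun r c => by
    simp only [Pi.add_apply, add_mul, sum_add_distrib]
    congr 1
    rw [sum_eq_single i₀ (fun i _ hi => by simp [hi]) (by simp)]
    simp
  have e' : r + Pi.single i₀ c = r' + Pi.single i₀ c' := e
  have h3 := key r c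
  rw [e', key] at h3
  simp only at h1 h2
  rw [h1, h2, zero_add, zero_add] at h3
  obtain rfl : c' = c := mul_right_cancel₀ hi h3
  rw [add_right_cancel e']

section

variable {F α : Type} [Field F] [Fintype F] [DecidableEq F] [DecidableEq α] {n : ℕ}

/-- The number of pairs in `G` with the same image. -/
def coll (G : Finset α) (φ : α → F) : ℕ := ∑ g ∈ G, (G.filter fun g' => φ g' = φ g).card

theorem sum_coll (G : Finset α) (X : α → Fin n → F) (hX : Set.InjOn X G)
    (hG : G.card ≤ Fintype.card F) :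
    ∑ r : Fin n → F, coll G (fun g => ∑ i, r i * X g i) ≤ ∑ _r : Fin n → F, 2 * G.card := by
  simp only [coll]
  rw [sum_comm, sum_const, card_univ, smul_eq_mul, ← mul_assoc, mul_comm _ G.card, ← smul_eq_mul]
  refine sum_le_card_nsmul _ _ _ fun g hg => ?_
  simp only [card_filter]
  rw [sum_comm, ← add_sum_erase _ _ hg, mul_two]
  refine add_le_add (by simp) (Nat.le_of_mul_le_mul_right ?_ (Fintype.card_pos (α := F)))
  rw [sum_mul, mul_comm (Fintype.card (Fin n → F))]
  refine (sum_le_card_nsmul _ _ (Fintype.card (Fin n → F)) fun g' hg' => ?_).trans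
    (Nat.mul_le_mul_right _ ((card_erase_le).trans hG))
  have h2 := card_ker (v := X g' - X g)
    (sub_ne_zero.2 fun h => (mem_erase.1 hg').1 (hX (mem_erase.1 hg').2 hg h))
  rw [card_filter] at h2
  refine le_trans (le_of_eq ?_) h2
  congr 1
  refine sum_congr rfl fun r _ => if_congr ?_ rfl rfl
  simp only [Pi.sub_apply, mul_sub, sum_sub_distrib, sub_eq_zero]

omit [Field F] [Fintype F] [DecidableEq α] in
theorem sq_le_coll (G : Finset α) (φ : α → F) : G.card ^ 2 ≤ (G.image φ).card * coll G φ := by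
  have h2 : coll G φ = ∑ y ∈ G.image φ, (G.filter fun g' => φ g' = y).card ^ 2 := by
    rw [coll, sum_comp (fun y => (G.filter fun g' => φ g' = y).card) φ]
    exact sum_congr rfl fun y _ => by rw [smul_eq_mul, sq]
  have h3 := sq_sum_le_card_mul_sum_sq (s := G.image φ)
    (f := fun y => (G.filter fun g' => φ g' = y).card)
  rwa [← card_eq_sum_card_image, ← h2] at h3

omit [Field F] [Fintype F] [DecidableEq α] in
theorem coll_mono {G G' : Finset α} (h : G ⊆ G') (φ : α → F) : coll G φ ≤ coll G' φ :=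
  (sum_le_sum fun _ _ => card_le_card (filter_subset_filter _ h)).trans (sum_le_sum_of_subset h)

theorem proj {β : Type} [DecidableEq β] (Ξ : Finset α) (X : α → Fin n → F) (hX : Set.InjOn X Ξ)
    (hΞ : Ξ.card ≤ Fintype.card F) (G : α → Finset β) (Y : β → Fin n → F) {m : ℕ} (hm : 0 < m)
    (hY : ∀ ξ ∈ Ξ, Set.InjOn Y (G ξ)) (hG : ∀ ξ ∈ Ξ, (G ξ).card = m) (hmF : m ≤ Fintype.card F) :
    ∃ (r : Fin n → F) (Ξ' : Finset α), Ξ' ⊆ Ξ ∧
      Ξ.card ≤ 16 * (Ξ'.image fun ξ => ∑ i, r i * X ξ i).card ∧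
      ∀ ξ ∈ Ξ', m ≤ 8 * ((G ξ).image fun g => ∑ i, r i * Y g i).card := by
  have h1 : ∑ r : Fin n → F, (m * coll Ξ (fun ξ => ∑ i, r i * X ξ i) +
      ∑ ξ ∈ Ξ, coll (G ξ) fun g => ∑ i, r i * Y g i) ≤ ∑ _r : Fin n → F, 4 * m * Ξ.card := by
    have a1 := Nat.mul_le_mul_left m (sum_coll Ξ X hX hΞ)
    have a2 := sum_le_card_nsmul Ξ _ (∑ _r : Fin n → F, 2 * m) fun ξ hξ => by
      simpa only [hG ξ hξ] using sum_coll (G ξ) Y (hY ξ hξ) ((hG ξ hξ).trans_le hmF)
    rw [sum_add_distrib, ← mul_sum, sum_comm]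
    simp only [sum_const, smul_eq_mul] at a1 a2 ⊢
    nlinarith
  obtain ⟨r, -, hr⟩ := exists_le_of_sum_le univ_nonempty h1
  set Ξ' := Ξ.filter fun ξ => coll (G ξ) (fun g => ∑ i, r i * Y g i) ≤ 8 * m with hΞ'
  refine ⟨r, Ξ', filter_subset _ _, ?_, fun ξ hξ => ?_⟩
  · have a1 := card_nsmul_le_sum
      (Ξ.filter fun ξ => ¬ coll (G ξ) (fun g => ∑ i, r i * Y g i) ≤ 8 * m) _ (8 * m)
      fun ξ hξ => (not_le.1 (mem_filter.1 hξ).2).le
    have a2 := a1.trans (sum_le_sum_of_subset (filter_subset _ _))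
    have a3 := card_filter_add_card_filter_not (s := Ξ)
      fun ξ => coll (G ξ) (fun g => ∑ i, r i * Y g i) ≤ 8 * m
    rw [smul_eq_mul] at a2
    have a4 : Ξ.card ≤ 2 * Ξ'.card := by
      have : m * (8 * (Ξ.filter fun ξ => ¬ coll (G ξ) (fun g => ∑ i, r i * Y g i) ≤ 8 * m).card) ≤
          m * (4 * Ξ.card) := by nlinarith [Nat.zero_le (m * coll Ξ fun ξ => ∑ i, r i * X ξ i)]
      have h8 := Nat.le_of_mul_le_mul_left this hm
      rw [hΞ']
      omega
    have a5 : coll Ξ (fun ξ => ∑ i, r i * X ξ i) ≤ 4 * Ξ.card :=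
      Nat.le_of_mul_le_mul_left (by
        nlinarith [Nat.zero_le (∑ ξ ∈ Ξ, coll (G ξ) fun g => ∑ i, r i * Y g i)]) hm
    have a6 := (sq_le_coll Ξ' fun ξ => ∑ i, r i * X ξ i).trans
      (Nat.mul_le_mul_left _ ((coll_mono (filter_subset _ _) _).trans a5))
    rcases Nat.eq_zero_or_pos Ξ.card with h0 | h0
    · omega
    · refine Nat.le_of_mul_le_mul_right ?_ h0
      nlinarith [Nat.mul_le_mul a4 a4]
  · have a6 := (sq_le_coll (G ξ) fun g => ∑ i, r i * Y g i).trans
      (Nat.mul_le_mul_left _ (mem_filter.1 hξ).2)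
    rw [hG ξ (mem_filter.1 hξ).1] at a6
    exact Nat.le_of_mul_le_mul_right (by nlinarith) hm

end

theorem cover {F : Type} [AddCommGroup F] [Fintype F] [DecidableEq F] (Y : Finset F)
    (hY : Fintype.card F ≤ 32 * Y.card) (k : ℕ) : ∃ T : Finset F, T.card ≤ k ∧
      32 ^ k * (univ.filter fun z => ∀ s ∈ T, z - s ∉ Y).card ≤ 31 ^ k * Fintype.card F := by
  induction k with
  | zero => exact ⟨∅, le_rfl, by simp⟩
  | succ k ih =>
    obtain ⟨T, h1, h2⟩ := ih
    set U := univ.filter fun z => ∀ s ∈ T, z - s ∉ Y with hU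
    have h3 : ∑ _s : F, U.card ≤ ∑ s : F, 32 * (U.filter fun z => z - s ∈ Y).card := by
      rw [← mul_sum, sum_const, card_univ, smul_eq_mul]
      simp only [card_filter]
      rw [sum_comm]
      have : ∀ z ∈ U, ∑ s : F, (if z - s ∈ Y then 1 else 0) = Y.card := fun z _ =>
        ((Equiv.subLeft z).sum_comp fun s => if s ∈ Y then 1 else 0).trans (by simp)
      rw [sum_congr rfl this, sum_const, smul_eq_mul]
      nlinarith
    obtain ⟨s, -, hs⟩ := exists_le_of_sum_le univ_nonempty h3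
    refine ⟨insert s T, (card_insert_le _ _).trans (by omega), ?_⟩
    have h4 : (univ.filter fun z => ∀ s' ∈ insert s T, z - s' ∉ Y) =
        U.filter fun z => ¬ z - s ∈ Y := by
      ext z
      simp [hU, and_comm]
    have h5 := card_filter_add_card_filter_not (s := U) fun z => z - s ∈ Y
    rw [h4, pow_succ, pow_succ]
    nlinarith [Nat.mul_le_mul_left (32 ^ k)
      (show 32 * (U.filter fun z => ¬ z - s ∈ Y).card ≤ 31 * U.card by omega)]

end Pool.Agent.Lib.MP_cc859a_an.Lp
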