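import Pool.Agent.Lib.MP_cc859a_an.Lp.Typ
import Pool.Agent.Lib.MP_cc859a_an.Lp.Proj

/-! Three small sets of residues that contain many progressions `y + τ, y + 2 τ, y + 3 τ` for every
residue `y`. -/

namespace Pool.Agent.Lib.MP_cc859a_an.Lp

open Finset Filter Topology

theorem cast_inj {ι : Type} [Fintype ι] (x : ι → ℤ) {P : ℕ}
    (hP : ∑ s, ∑ s', (x s - x s').natAbs < P) {s s' : ι} (h : (x s : ZMod P) = x s') :
    x s = x s' := by
  have h1 := (ZMod.intCast_eq_intCast_iff_dvd_sub _ _ _).1 h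
  have h2 : (x s' - x s).natAbs ≤ ∑ s, ∑ s', (x s - x s').natAbs :=
    le_trans (single_le_sum (f := fun s'' => (x s' - x s'').natAbs)
      (fun _ _ => Nat.zero_le _) (mem_univ s))
      (single_le_sum (f := fun s => ∑ s', (x s - x s').natAbs) (fun _ _ => Nat.zero_le _)
        (mem_univ s'))
  have h3 := Int.eq_zero_of_dvd_of_natAbs_lt_natAbs h1 (by rw [Int.natAbs_natCast]; omega)
  omega

theorem comb {ι : Type} [Fintype ι] [DecidableEq ι] {p : ℝ} (D : Data ι p)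
    (hp3 : p < 3) {K : ℝ} (hK : 0 < K) (N₀ : ℕ) : ∃ P : ℕ, N₀ ≤ P ∧ ∃ m : ℝ, 0 < m ∧
      ∃ A B C : Finset (ZMod (P + 1)), (∀ y : ZMod (P + 1), m ≤ (univ.filter
        fun τ : ZMod (P + 1) => y + τ ∈ A ∧ y + 2 * τ ∈ B ∧ y + 3 * τ ∈ C).card) ∧
      K * (A.card * B.card * C.card) ≤ ((P : ℝ) + 1) ^ (3 - p) * m ^ p := by
  obtain ⟨c, hc⟩ : ∃ c : ℕ, 31 ^ c * (2 * Fintype.card ι) < 32 ^ c := by
    have := (tendsto_pow_atTop_nhds_zero_of_lt_one (r := (31 / 32 : ℝ)) (by norm_num)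
      (by norm_num)).mul_const (2 * Fintype.card ι : ℝ)
    rw [zero_mul] at this
    obtain ⟨c, hc⟩ := (this.eventually (gt_mem_nhds one_pos)).exists
    refine ⟨c, ?_⟩
    rw [div_pow, div_mul_eq_mul_div, div_lt_one (by positivity)] at hc
    exact_mod_cast hc
  set M : ℕ := N₀ + 1 + ∑ s, ∑ s', (D.x s - D.x s').natAbs + ∑ s, ∑ s', (D.t s - D.t s').natAbs
    with hM
  have e1 : ∀ᶠ n : ℕ in atTop, 4 * (M : ℝ) ≤ Real.exp (n * D.β₀) :=
    (Real.tendsto_exp_atTop.comp (tendsto_natCast_atTop_atTop.atTop_mul_const D.pos)).eventually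
      (eventually_ge_atTop _)
  have e2 : ∀ᶠ n : ℕ in atTop, K * c ^ 3 * (4 ^ (3 - p) * 32 ^ p) * ((n : ℝ) ^ 3 /
      Real.exp ((3 - p) * D.β₀ + p * (D.β - D.α 0) - (D.α 1 + D.α 2 + D.α 3)) ^ n) < 1 := by
    have := (tendsto_pow_const_div_const_pow_of_one_lt 3
      (Real.one_lt_exp_iff.2 (sub_pos.2 D.gap))).const_mul (K * c ^ 3 * (4 ^ (3 - p) * 32 ^ p))
    rw [mul_zero] at this
    exact this.eventually (gt_mem_nhds one_pos)
  obtain ⟨n, ⟨G, Ξ, g1, g2, g3, g4⟩, n1, n2, n3⟩ :=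
    ((typical D).and (e1.and (e2.and (eventually_ge_atTop 1)))).exists
  have hMG : M ≤ Ξ.card := by
    have : (M : ℝ) ≤ Ξ.card := by linarith
    exact_mod_cast this
  obtain ⟨q, hq, p1, p2⟩ := Nat.exists_prime_lt_and_le_two_mul Ξ.card (by omega)
  obtain ⟨P, rfl⟩ : ∃ P, q = P + 1 := ⟨q - 1, by omega⟩
  have : Fact (P + 1).Prime := ⟨hq⟩
  set m : ℕ := ⌈Real.exp (n * (D.β - D.α 0)) / 4⌉₊ with hm
  have m0 : 0 < m := Nat.ceil_pos.2 (by positivity)
  have m1 : m ≤ Ξ.card := Nat.ceil_le.2 (by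
    have := Real.exp_le_exp.2 (mul_le_mul_of_nonneg_left D.fib n.cast_nonneg)
    linarith)
  have m2 : ∀ ξ, ∃ H : Finset (Fin n → ι), ξ ∈ Ξ →
      H ⊆ G.filter (fun g => (fun i => D.x (g i)) = ξ) ∧ H.card = m := fun ξ => by
    by_cases hξ : ξ ∈ Ξ
    · obtain ⟨H, h⟩ := exists_subset_card_eq (s := G.filter fun g => (fun i => D.x (g i)) = ξ)
        (n := m) (Nat.ceil_le.2 (by linarith [g3 ξ hξ]))
      exact ⟨H, fun _ => h⟩
    · exact ⟨∅, fun h => absurd h hξ⟩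
  choose H hH using m2
  have hx : ∀ ξ ∈ Ξ, ∀ g ∈ H ξ, (fun i => D.x (g i)) = ξ := fun ξ hξ g hg =>
    (mem_filter.1 ((hH ξ hξ).1 hg)).2
  obtain ⟨r, Ξ', x1, x2, x3⟩ := proj Ξ (fun ξ i => ((ξ i : ℤ) : ZMod (P + 1)))
    (fun ξ hξ ξ' hξ' h => by
      obtain ⟨g, hg⟩ := card_pos.1 ((hH ξ hξ).2.symm ▸ m0)
      obtain ⟨g', hg'⟩ := card_pos.1 ((hH ξ' hξ').2.symm ▸ m0)
      rw [← hx ξ hξ g hg, ← hx ξ' hξ' g' hg'] at h ⊢
      exact funext fun i => cast_inj D.x (by omega) (congrFun h i))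
    (by rw [ZMod.card]; omega) H (fun g i => (D.t (g i) : ZMod (P + 1))) m0
    (fun ξ hξ g hg g' hg' h => funext fun i => D.inj _ _
      (congrFun ((hx ξ hξ g hg).trans (hx ξ hξ g' hg').symm) i)
      (cast_inj D.t (by omega) (congrFun h i))) (fun ξ hξ => (hH ξ hξ).2)
    (by rw [ZMod.card]; omega)
  obtain ⟨T, t1, t2⟩ := cover _ (show Fintype.card (ZMod (P + 1)) ≤ 32 *
    (Ξ'.image fun ξ => ∑ i, r i * ((ξ i : ℤ) : ZMod (P + 1))).card by rw [ZMod.card]; omega) (c * n)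
  have t3 : 31 ^ (c * n) * Fintype.card (ZMod (P + 1)) < 32 ^ (c * n) := by
    rw [ZMod.card, pow_mul, pow_mul]
    refine lt_of_le_of_lt ?_ (Nat.pow_lt_pow_left hc (by omega))
    rw [mul_pow, mul_pow]
    refine Nat.mul_le_mul_left _ (p2.trans (Nat.mul_le_mul ?_ g2))
    exact Nat.le_self_pow (by omega) 2
  have t4 : (univ.filter fun z => ∀ s ∈ T,
      z - s ∉ Ξ'.image fun ξ => ∑ i, r i * ((ξ i : ℤ) : ZMod (P + 1))).card = 0 := by
    by_contra h
    have := Nat.le_mul_of_pos_right (32 ^ (c * n)) (Nat.pos_of_ne_zero h)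
    omega
  let A : Fin 4 → Finset (ZMod (P + 1)) := fun j =>
    image₂ (fun v s => ∑ i, r i * ((v i : ℤ) : ZMod (P + 1)) + s)
      (G.image fun g i => D.x (g i) + (j : ℕ) * D.t (g i)) T
  refine ⟨P, by omega, Real.exp (n * (D.β - D.α 0)) / 32, by positivity, A 1, A 2, A 3,
    fun y => ?_, ?_⟩
  · have h1 := (filter_eq_empty_iff.1 (card_eq_zero.1 t4)) (mem_univ y)
    simp only [not_forall, not_not] at h1
    obtain ⟨s, hs, h1⟩ := h1
    obtain ⟨ξ, hξ, h2⟩ := mem_image.1 h1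
    have h3 : ((H ξ).image fun g => ∑ i, r i * (D.t (g i) : ZMod (P + 1))) ⊆ univ.filter
        fun τ : ZMod (P + 1) => y + τ ∈ A 1 ∧ y + 2 * τ ∈ A 2 ∧ y + 3 * τ ∈ A 3 := fun τ hτ => by
      obtain ⟨g, hg, rfl⟩ := mem_image.1 hτ
      have key : ∀ j : Fin 4, y + (j : ℕ) * ∑ i, r i * (D.t (g i) : ZMod (P + 1)) ∈ A j :=
        fun j => mem_image₂.2 ⟨_, mem_image_of_mem _ (mem_filter.1 ((hH ξ (x1 hξ)).1 hg)).1, s, hs,
          by
            rw [← sub_add_cancel y s, ← h2, ← hx ξ (x1 hξ) g hg, mul_sum, add_right_comm,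
              ← sum_add_distrib]
            congr 1
            refine sum_congr rfl fun i _ => ?_
            push_cast
            ring⟩
      exact mem_filter.2 ⟨mem_univ _, by simpa using key 1, by simpa using key 2,
        by simpa using key 3⟩
    have h4 := (Nat.cast_le (α := ℝ)).2
      ((x3 ξ hξ).trans (Nat.mul_le_mul_left 8 (card_le_card h3)))
    rw [Nat.cast_mul, Nat.cast_ofNat] at h4
    linarith [Nat.le_ceil (Real.exp (n * (D.β - D.α 0)) / 4)]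
  · have h1 : ∀ j, ((A j).card : ℝ) ≤ Real.exp (n * D.α j) * (c * n) := fun j => by
      refine (Nat.cast_le.2 (card_image₂_le _ _ _)).trans ?_
      rw [Nat.cast_mul]
      exact mul_le_mul (g4 j) (by exact_mod_cast t1) (Nat.cast_nonneg _) (Real.exp_pos _).le
    refine (mul_le_mul_of_nonneg_left (mul_le_mul (mul_le_mul (h1 1) (h1 2) (Nat.cast_nonneg _)
      (by positivity)) (h1 3) (Nat.cast_nonneg _) (by positivity)) hK.le).trans ?_
    have h2 : Real.exp (n * D.β₀) / 4 ≤ (P : ℝ) + 1 := by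
      have : (Ξ.card : ℝ) < P + 1 := by exact_mod_cast p1
      linarith
    refine le_trans ?_ (mul_le_mul_of_nonneg_right
      (Real.rpow_le_rpow (by positivity) h2 (sub_pos.2 hp3).le) (by positivity))
    rw [Real.div_rpow (Real.exp_pos _).le (by norm_num), Real.div_rpow (Real.exp_pos _).le
      (by norm_num), ← Real.exp_mul, ← Real.exp_mul, div_mul_div_comm, ← Real.exp_add,
      le_div_iff₀ (by positivity)]
    rw [← Real.exp_nat_mul, ← mul_div_assoc, div_lt_one (Real.exp_pos _), mul_sub, Real.exp_sub,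
      lt_div_iff₀ (Real.exp_pos _), show n * ((3 - p) * D.β₀ + p * (D.β - D.α 0)) =
        n * D.β₀ * (3 - p) + n * (D.β - D.α 0) * p by ring, mul_add, mul_add, Real.exp_add (_ + _),
      Real.exp_add (n * D.α 1)] at n2
    refine le_trans (le_of_eq ?_) n2.le
    ring

end Pool.Agent.Lib.MP_cc859a_an.Lp
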