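import Pool.Agent.Lib.MP_cc859a_an.Lp.Comb
import Pool.Agent.Lib.MP_cc859a_an.Lp.Clock

/-! Divergence of the triple averages for an unbounded function. -/

namespace Pool.Agent.Lib.MP_cc859a_an.Lp

open MeasureTheory Filter Finset
open scoped ENNReal

theorem weights {ι : Type} [Fintype ι] [DecidableEq ι] {p : ℝ} (D : Data ι p) (hp0 : 0 < p)
    (hp3 : p < 3) {η M : ℝ} (hη : 0 < η) (hM : 0 < M) (N₀ : ℕ) : ∃ P : ℕ, N₀ ≤ P ∧
      ∃ V : ZMod (P + 1) → ℝ, (∀ y, 0 ≤ V y) ∧ ∑ y, V y ^ p ≤ 3 * η * (P + 1) ∧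
      ∀ y, M * (P + 1) ≤ ∑ τ, V (y + τ) * V (y + 2 * τ) * V (y + 3 * τ) := by
  obtain ⟨P, hP, m, hm, A, B, C, h1, h2⟩ := comb D hp3 (K := M ^ p / η ^ 3) (by positivity) N₀
  let u : Finset (ZMod (P + 1)) → ZMod (P + 1) → ℝ := fun A y =>
    if y ∈ A then η * (P + 1) / A.card else 0
  have u0 : ∀ A y, 0 ≤ u A y := fun A y => by
    simp only [u]
    split_ifs <;> positivity
  have u1 : ∀ A, ∑ y, u A y ≤ η * (P + 1) := fun A => by
    simp only [u, sum_ite_mem, univ_inter, sum_const, nsmul_eq_mul]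
    rw [mul_div_assoc', mul_comm, mul_div_assoc]
    exact mul_le_of_le_one_right (by positivity) (div_self_le_one _)
  have u2 : ∀ y, 0 ≤ u A y + u B y + u C y := fun y => add_nonneg (add_nonneg (u0 _ _) (u0 _ _))
    (u0 _ _)
  refine ⟨P, hP, fun y => (u A y + u B y + u C y) ^ p⁻¹, fun y => Real.rpow_nonneg (u2 y) _, ?_,
    fun y => ?_⟩
  · simp only [Real.rpow_inv_rpow (u2 _) hp0.ne', sum_add_distrib]
    linarith [u1 A, u1 B, u1 C]
  · refine le_trans ?_ (sum_le_sum_of_subset_of_nonneg (subset_univ (univ.filter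
      fun τ : ZMod (P + 1) => y + τ ∈ A ∧ y + 2 * τ ∈ B ∧ y + 3 * τ ∈ C)) fun τ _ _ => by
        have := u2 (y + τ)
        have := u2 (y + 2 * τ)
        have := u2 (y + 3 * τ)
        positivity)
    refine le_trans ?_ (card_nsmul_le_sum _ _ (M * (P + 1) / m) fun τ hτ => ?_)
    · rw [nsmul_eq_mul, mul_div_assoc', le_div_iff₀ hm, mul_comm _ (M * (P + 1))]
      exact mul_le_mul_of_nonneg_left (h1 y) (by positivity)
    · obtain ⟨a, b, c⟩ := (mem_filter.1 hτ).2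
      have a0 : (0 : ℝ) < A.card := Nat.cast_pos.2 (card_pos.2 ⟨_, a⟩)
      have b0 : (0 : ℝ) < B.card := Nat.cast_pos.2 (card_pos.2 ⟨_, b⟩)
      have c0 : (0 : ℝ) < C.card := Nat.cast_pos.2 (card_pos.2 ⟨_, c⟩)
      have a1 : η * (P + 1) / A.card ≤ u A (y + τ) + u B (y + τ) + u C (y + τ) := by
        have : u A (y + τ) = η * (P + 1) / A.card := if_pos a
        linarith [u0 B (y + τ), u0 C (y + τ)]
      have b1 : η * (P + 1) / B.card ≤ u A (y + 2 * τ) + u B (y + 2 * τ) + u C (y + 2 * τ) := by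
        have : u B (y + 2 * τ) = η * (P + 1) / B.card := if_pos b
        linarith [u0 A (y + 2 * τ), u0 C (y + 2 * τ)]
      have c1 : η * (P + 1) / C.card ≤ u A (y + 3 * τ) + u B (y + 3 * τ) + u C (y + 3 * τ) := by
        have : u C (y + 3 * τ) = η * (P + 1) / C.card := if_pos c
        linarith [u0 A (y + 3 * τ), u0 B (y + 3 * τ)]
      rw [← Real.mul_rpow (u2 _) (u2 _), ← Real.mul_rpow (mul_nonneg (u2 _) (u2 _)) (u2 _),
        Real.le_rpow_inv_iff_of_pos (by positivity) (mul_nonneg (mul_nonneg (u2 _) (u2 _)) (u2 _))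
          hp0]
      refine le_trans ?_ (mul_le_mul (mul_le_mul a1 b1 (by positivity) (u2 _)) c1 (by positivity)
        (mul_nonneg (u2 _) (u2 _)))
      rw [Real.rpow_sub (by positivity), Real.rpow_ofNat, div_mul_eq_mul_div, div_mul_eq_mul_div,
        div_le_div_iff₀ (by positivity) (by positivity)] at h2
      rw [Real.div_rpow (by positivity) hm.le, Real.mul_rpow hM.le (by positivity),
        div_mul_div_comm, div_mul_div_comm, div_le_div_iff₀ (by positivity) (by positivity)]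
      linarith

theorem sum_zmod_le {P : ℕ} (g : ZMod (P + 1) → ℝ) (hg : ∀ y, 0 ≤ g y) :
    ∑ τ, g τ ≤ ∑ n ∈ Icc 1 (P + 1), g n := by
  have h1 : ∑ n ∈ univ.image fun τ : ZMod (P + 1) => (τ - 1).val + 1, g n = ∑ τ, g τ := by
    rw [sum_image fun a _ b _ h => sub_left_injective (ZMod.val_injective _ (Nat.succ.inj h))]
    simp
  rw [← h1]
  refine sum_le_sum_of_subset_of_nonneg (fun n hn => ?_) fun _ _ _ => hg _
  obtain ⟨τ, -, rfl⟩ := mem_image.1 hn
  exact mem_Icc.2 ⟨by omega, ZMod.val_lt _⟩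

variable {X : Type*} [MeasurableSpace X] {μ : Measure X} [IsProbabilityMeasure μ] {T : X → X}

theorem scale {ι : Type} [Fintype ι] [DecidableEq ι] {p : ℝ} (D : Data ι p) (hp0 : 0 < p)
    (hp3 : p < 3) (hT : Ergodic T μ)
    (hna : ∀ δ : ℝ, 0 < δ → ∃ B, MeasurableSet B ∧ 0 < μ.real B ∧ μ.real B < δ) {η : ℝ}
    (hη : 0 < η) (j : ℕ) : ∃ N : ℕ, j < N ∧ ∃ (W : X → ℝ) (E : Set X), Measurable W ∧
      (∀ x, 0 ≤ W x) ∧ ∫⁻ x, ENNReal.ofReal (W x ^ p) ∂μ ≤ ENNReal.ofReal (6 * η) ∧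
      μ E ≤ ENNReal.ofReal (3 * η) ∧ ∀ x ∉ E, ((j : ℝ) + 1) * N ≤
        ∑ n ∈ Icc 1 N, W (T^[n] x) * W (T^[2 * n] x) * W (T^[3 * n] x) := by
  obtain ⟨P, hP, V, v0, v1, v2⟩ := weights D hp0 hp3 hη (M := j + 1) (by positivity) j
  obtain ⟨B, hB, b0, b1⟩ := hna (min (η / (P + 1)) (1 / (P + 1) ^ 2)) (by positivity)
  obtain ⟨S, E, s1, s2, s3, s4⟩ := clock hT hB (ENNReal.toReal_pos_iff.1 b0).1 P
  have s5 : μ.real E ≤ μ.real B := ENNReal.toReal_mono (measure_ne_top _ _) s3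
  have s6 := clock_le hT.toMeasurePreserving s1
    ((le_div_iff₀ (by positivity)).1 (s5.trans (b1.le.trans (min_le_right _ _)))) s4
  have hS : Measurable S := measurable_to_countable' s1
  refine ⟨P + 1, by omega, fun x => V (S x), ⋃ i ∈ range (3 * (P + 1)), T^[i] ⁻¹' E,
    (measurable_of_countable V).comp hS, fun x => v0 _, ?_, ?_, fun x hx => ?_⟩
  · rw [← lintegral_map (f := fun y => ENNReal.ofReal (V y ^ p)) (measurable_of_countable _) hS,
      lintegral_fintype]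
    refine (sum_le_sum (g := fun y => ENNReal.ofReal (V y ^ p * (2 / (P + 1)))) fun y _ => ?_).trans ?_
    · rw [ENNReal.ofReal_mul (Real.rpow_nonneg (v0 y) _), Measure.map_apply hS
        (measurableSet_singleton y), ← ofReal_measureReal]
      gcongr
      exact (le_div_iff₀ (by positivity)).2 (s6 y)
    · rw [← ENNReal.ofReal_sum_of_nonneg fun y _ => mul_nonneg (Real.rpow_nonneg (v0 y) _)
        (by positivity), ← sum_mul]
      refine ENNReal.ofReal_le_ofReal ?_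
      rw [mul_div_assoc', div_le_iff₀ (by positivity)]
      linarith
  · rw [← ofReal_measureReal (measure_ne_top _ _)]
    refine ENNReal.ofReal_le_ofReal ((measureReal_biUnion_finset_le _ _).trans ?_)
    simp only [(hT.toMeasurePreserving.iterate _).measureReal_preimage s2.nullMeasurableSet,
      sum_const, card_range, nsmul_eq_mul]
    have := (le_div_iff₀ (by positivity)).1 (s5.trans (b1.le.trans (min_le_left _ _)))
    push_cast
    linarith
  · have h1 := clock_iter s4 (x := x) (L := 3 * (P + 1)) fun i hi h =>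
      hx (Set.mem_biUnion (mem_coe.2 (mem_range.2 hi)) h)
    push_cast
    refine (v2 (S x)).trans ((sum_zmod_le _ fun τ =>
      mul_nonneg (mul_nonneg (v0 _) (v0 _)) (v0 _)).trans (le_of_eq (sum_congr rfl fun n hn => ?_)))
    have := (mem_Icc.1 hn).2
    rw [h1 n (by omega), h1 (2 * n) (by omega), h1 (3 * n) (by omega)]
    push_cast
    rfl

theorem diverge {ι : Type} [Fintype ι] [DecidableEq ι] {p : ℝ} (D : Data ι p) (hp0 : 0 < p)
    (hp3 : p < 3) (hT : Ergodic T μ)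
    (hna : ∀ δ : ℝ, 0 < δ → ∃ B, MeasurableSet B ∧ 0 < μ.real B ∧ μ.real B < δ) :
    ∃ f : X → ℝ, Measurable f ∧ (∀ x, 0 ≤ f x) ∧ MemLp f (ENNReal.ofReal p) μ ∧
      ∀ᵐ x ∂μ, ∀ M : ℝ, ∃ᶠ N : ℕ in atTop, M ≤
        (1 / N : ℝ) * ∑ n ∈ Icc 1 N, f (T^[n] x) * f (T^[2 * n] x) * f (T^[3 * n] x) := by
  choose N hN W E w1 w2 w3 w4 w5 using fun j =>
    scale D hp0 hp3 hT hna (pow_pos (by norm_num : (0 : ℝ) < 1 / 2) j) j
  have hs : ∀ c : ℝ, 0 ≤ c → ∑' j : ℕ, ENNReal.ofReal (c * (1 / 2) ^ j) ≠ ∞ := fun c hc => by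
    rw [← ENNReal.ofReal_tsum_of_nonneg (fun j => by positivity)
      (summable_geometric_two.mul_left c)]
    exact ENNReal.ofReal_ne_top
  let F : X → ℝ≥0∞ := fun x => ∑' j, ENNReal.ofReal (W j x ^ p)
  have hm : ∀ j, Measurable fun x => ENNReal.ofReal (W j x ^ p) := fun j =>
    ((w1 j).pow_const p).ennreal_ofReal
  have f1 : Measurable F := Measurable.tsum hm
  have f2 : ∫⁻ x, F x ∂μ ≠ ∞ := by
    rw [lintegral_tsum fun j => (hm j).aemeasurable]
    exact ne_top_of_le_ne_top (hs 6 (by norm_num)) (ENNReal.tsum_le_tsum w3)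
  have f3 : Measurable fun x => (F x).toReal ^ p⁻¹ := f1.ennreal_toReal.pow_const _
  have f4 : ∀ x, 0 ≤ (F x).toReal ^ p⁻¹ := fun x => Real.rpow_nonneg ENNReal.toReal_nonneg _
  refine ⟨_, f3, f4, ⟨f3.aestronglyMeasurable, ?_⟩, ?_⟩
  · rw [eLpNorm_lt_top_iff_lintegral_rpow_enorm_lt_top (by simpa) ENNReal.ofReal_ne_top,
      ENNReal.toReal_ofReal hp0.le]
    refine (lintegral_mono fun x => ?_).trans_lt f2.lt_top
    rw [Real.enorm_eq_ofReal (f4 x), ENNReal.ofReal_rpow_of_nonneg (f4 x) hp0.le,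
      Real.rpow_inv_rpow ENNReal.toReal_nonneg hp0.ne']
    exact ENNReal.ofReal_toReal_le
  · have a1 : ∀ᵐ x ∂μ, ∀ i, F (T^[i] x) < ∞ := ae_all_iff.2 fun i =>
      (hT.toMeasurePreserving.iterate i).quasiMeasurePreserving.ae (ae_lt_top f1 f2)
    have a2 := ae_eventually_notMem
      (ne_top_of_le_ne_top (hs 3 (by norm_num)) (ENNReal.tsum_le_tsum w4))
    filter_upwards [a1, a2] with x h1 h2 M
    have h3 : ∀ j i, W j (T^[i] x) ≤ (F (T^[i] x)).toReal ^ p⁻¹ := fun j i => by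
      rw [Real.le_rpow_inv_iff_of_pos (w2 _ _) ENNReal.toReal_nonneg hp0]
      exact (ENNReal.ofReal_le_iff_le_toReal (h1 i).ne).1 (ENNReal.le_tsum j)
    refine (tendsto_atTop_mono (fun j => (hN j).le) tendsto_id).frequently (Eventually.frequently ?_)
    filter_upwards [h2, eventually_ge_atTop ⌈M⌉₊] with j k1 k2
    have k3 : (0 : ℝ) < N j := Nat.cast_pos.2 (by have := hN j; omega)
    rw [one_div, inv_mul_eq_div, le_div_iff₀ k3]
    refine le_trans ?_ ((w5 j x k1).trans (sum_le_sum fun n _ => mul_le_mul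
      (mul_le_mul (h3 _ _) (h3 _ _) (w2 _ _) (f4 _)) (h3 _ _) (w2 _ _) (mul_nonneg (f4 _) (f4 _))))
    exact mul_le_mul_of_nonneg_right (by linarith [Nat.ceil_le.1 k2]) k3.le

end Pool.Agent.Lib.MP_cc859a_an.Lp
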