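import Mathlib

/-! Typical sequences: a Chernoff bound and a counting bound from Kraft's inequality. -/

namespace Pool.Agent.Lib.MP_cc859a_an.Lp

open Finset Filter Topology

variable {ι : Type} [Fintype ι] [DecidableEq ι]

omit [DecidableEq ι] in
theorem chernoff (w h : ι → ℝ) (hw : ∀ s, 0 ≤ w s) (h1 : ∑ s, w s = 1) {α : ℝ}
    (hα : ∑ s, w s * h s < α) :
    ∃ ρ : ℝ, 0 ≤ ρ ∧ ρ < 1 ∧ ∀ n : ℕ,
      ∑ g ∈ univ.filter (fun g : Fin n → ι => n * α < ∑ i, h (g i)), ∏ i, w (g i) ≤ ρ ^ n := by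
  have hd : HasDerivAt (fun θ : ℝ => ∑ s, w s * Real.exp (θ * (h s - α)))
      (∑ s, w s * (h s - α)) 0 := by
    refine HasDerivAt.fun_sum fun s _ => ?_
    have := (((hasDerivAt_id (0 : ℝ)).mul_const (h s - α)).exp).const_mul (w s)
    simpa using this
  have hneg : ∑ s, w s * (h s - α) < 0 := by
    simp only [mul_sub, sum_sub_distrib, ← sum_mul, h1]
    linarith
  obtain ⟨θ, h2, h3⟩ := ((hd.tendsto_slope_zero_right.eventually (gt_mem_nhds hneg)).and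
    self_mem_nhdsWithin).exists
  have h3' : 0 < θ := h3
  refine ⟨∑ s, w s * Real.exp (θ * (h s - α)), sum_nonneg fun s _ => by
    have := hw s
    positivity, ?_, fun n => ?_⟩
  · simp only [zero_add, zero_mul, Real.exp_zero, mul_one, h1, smul_eq_mul] at h2
    have := (mul_neg_iff.1 h2).resolve_right fun h => absurd h.1 (not_lt.2 (inv_pos.2 h3').le)
    linarith [this.2]
  · rw [Fintype.sum_pow]
    refine le_trans (sum_le_sum fun g hg => ?_) (sum_le_sum_of_subset_of_nonneg (subset_univ _)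
      fun g _ _ => prod_nonneg fun i _ => mul_nonneg (hw _) (Real.exp_pos _).le)
    rw [prod_mul_distrib, ← Real.exp_sum]
    refine le_mul_of_one_le_right (prod_nonneg fun i _ => hw _) (Real.one_le_exp ?_)
    rw [← mul_sum, sum_sub_distrib]
    have := (mem_filter.1 hg).2
    refine mul_nonneg h3'.le ?_
    simp only [sum_const, card_univ, Fintype.card_fin, nsmul_eq_mul]
    linarith

theorem kraft {n : ℕ} (V : Finset ℤ) (κ : ℤ → ℝ) (hκ : ∑ v ∈ V, Real.exp (-κ v) ≤ 1) {α : ℝ}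
    (A : Finset (Fin n → ℤ)) (hA : ∀ a ∈ A, (∀ i, a i ∈ V) ∧ ∑ i, κ (a i) ≤ n * α) :
    (A.card : ℝ) ≤ Real.exp (n * α) := by
  have h1 : (A.card : ℝ) * Real.exp (-(n * α)) ≤ ∑ a ∈ A, ∏ i, Real.exp (-κ (a i)) := by
    rw [← nsmul_eq_mul]
    refine card_nsmul_le_sum _ _ _ fun a ha => ?_
    rw [← Real.exp_sum, sum_neg_distrib]
    exact Real.exp_le_exp.2 (neg_le_neg (hA a ha).2)
  have h2 : ∑ a ∈ A, ∏ i, Real.exp (-κ (a i)) ≤
      ∑ a ∈ Fintype.piFinset fun _ : Fin n => V, ∏ i, Real.exp (-κ (a i)) :=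
    sum_le_sum_of_subset_of_nonneg (fun a ha => Fintype.mem_piFinset.2 (hA a ha).1)
      fun a _ _ => prod_nonneg fun i _ => (Real.exp_pos _).le
  rw [← prod_univ_sum (fun _ : Fin n => V) fun _ v => Real.exp (-κ v)] at h2
  have h3 : ∏ _i : Fin n, ∑ v ∈ V, Real.exp (-κ v) ≤ 1 :=
    prod_le_one (fun _ _ => sum_nonneg fun _ _ => (Real.exp_pos _).le) fun _ _ => hκ
  have h4 := h1.trans (h2.trans h3)
  rwa [Real.exp_neg, ← div_eq_mul_inv, div_le_one (Real.exp_pos _)] at h4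

/-- The data of a weighted family of three term progressions `x + t, x + 2 t, x + 3 t`. -/
structure Data (ι : Type) [Fintype ι] (p : ℝ) where
  x : ι → ℤ
  t : ι → ℤ
  w : ι → ℝ
  h : ι → ℝ
  h₀ : ℤ → ℝ
  V : Fin 4 → Finset ℤ
  κ : Fin 4 → ℤ → ℝ
  α : Fin 4 → ℝ
  β : ℝ
  β₀ : ℝ
  inj : ∀ s s', x s = x s' → t s = t s' → s = s'
  w0 : ∀ s, 0 ≤ w s
  w1 : ∑ s, w s = 1
  wh : ∀ s, w s ≤ Real.exp (-h s)
  wh₀ : ∀ v ∈ V 0, ∑ s with x s = v, w s ≤ Real.exp (-h₀ v)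
  mem : ∀ j s, x s + (j : ℕ) * t s ∈ V j
  kr : ∀ j, ∑ v ∈ V j, Real.exp (-κ j v) ≤ 1
  hα : ∀ j, ∑ s, w s * κ j (x s + (j : ℕ) * t s) < α j
  hβ : β < ∑ s, w s * h s
  hβ₀ : β₀ < ∑ s, w s * h₀ (x s)
  gap : α 1 + α 2 + α 3 < (3 - p) * β₀ + p * (β - α 0)
  pos : 0 < β₀
  fib : β - α 0 ≤ β₀

omit [DecidableEq ι] in
theorem typical₀ (w : ι → ℝ) (hw : ∀ s, 0 ≤ w s) (h1 : ∑ s, w s = 1) {σ : Type} [Fintype σ]
    (h : σ → ι → ℝ) (α : σ → ℝ) (hα : ∀ j, ∑ s, w s * h j s < α j) : ∀ᶠ n : ℕ in atTop,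
    ∃ G : Finset (Fin n → ι), 1 / 2 ≤ ∑ g ∈ G, ∏ i, w (g i) ∧
      ∀ g ∈ G, ∀ j, ∑ i, h j (g i) ≤ n * α j := by
  choose ρ h0 h2 h3 using fun j => chernoff w _ hw h1 (hα j)
  have ht : Tendsto (fun n : ℕ => ∑ j, ρ j ^ n) atTop (𝓝 (∑ _j : σ, 0)) :=
    tendsto_finsetSum _ fun j _ => tendsto_pow_atTop_nhds_zero_of_lt_one (h0 j) (h2 j)
  filter_upwards [ht.eventually (gt_mem_nhds (show ∑ _j : σ, (0 : ℝ) < 1 / 2 by simp))] with n hn
  refine ⟨univ.filter fun g => ∀ j, ∑ i, h j (g i) ≤ n * α j, ?_, fun g hg => (mem_filter.1 hg).2⟩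
  have hp : ∀ g : Fin n → ι, 0 ≤ ∏ i, w (g i) := fun g => prod_nonneg fun i _ => hw _
  have e1 : ∑ g : Fin n → ι, ∏ i, w (g i) = 1 := by rw [← Fintype.sum_pow, h1, one_pow]
  have e3 : ∑ g : Fin n → ι, ∏ i, w (g i) ≤
      ∑ g : Fin n → ι with ∀ j, ∑ i, h j (g i) ≤ n * α j, ∏ i, w (g i) +
      ∑ j, ∑ g : Fin n → ι with n * α j < ∑ i, h j (g i), ∏ i, w (g i) := by
    simp only [sum_filter]
    rw [sum_comm, ← sum_add_distrib]
    refine sum_le_sum fun g _ => ?_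
    have n1 : ∀ (c : Prop) [Decidable c], 0 ≤ if c then ∏ i, w (g i) else 0 := fun c _ => by
      split_ifs
      exacts [hp g, le_rfl]
    by_cases c2 : ∀ j, ∑ i, h j (g i) ≤ n * α j
    · rw [if_pos c2]
      exact le_add_of_nonneg_right (sum_nonneg fun j _ => n1 _)
    · obtain ⟨j, hj⟩ := not_forall.1 c2
      refine le_add_of_nonneg_of_le (n1 _) ?_
      refine le_trans ?_ (single_le_sum (fun j _ => n1 _) (mem_univ j))
      rw [if_pos (not_le.1 hj)]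
  have e4 := sum_le_sum fun j (_ : j ∈ univ) => h3 j n
  linarith

omit [DecidableEq ι] in
theorem typical {p : ℝ} (D : Data ι p) : ∀ᶠ n : ℕ in atTop, ∃ (G : Finset (Fin n → ι))
    (Ξ : Finset (Fin n → ℤ)), Real.exp (n * D.β₀) ≤ 4 * Ξ.card ∧ Ξ.card ≤ Fintype.card ι ^ n ∧
      (∀ ξ ∈ Ξ, Real.exp (n * (D.β - D.α 0)) ≤
        4 * (G.filter fun g => (fun i => D.x (g i)) = ξ).card) ∧
      ∀ j : Fin 4, ((G.image fun g i => D.x (g i) + (j : ℕ) * D.t (g i)).card : ℝ) ≤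
        Real.exp (n * D.α j) := by
  filter_upwards [typical₀ D.w D.w0 D.w1 (σ := Fin 4 ⊕ Bool)
    (Sum.elim (fun j s => D.κ j (D.x s + (j : ℕ) * D.t s))
      fun b s => cond b (-D.h s) (-D.h₀ (D.x s))) (Sum.elim D.α fun b => cond b (-D.β) (-D.β₀)) (by
      rintro (j | _ | _)
      · exact D.hα j
      · simpa using D.hβ₀
      · simpa using D.hβ)] with n hn
  obtain ⟨G, hn, hG⟩ := hn
  have g1 : ∀ j : Fin 4, ((G.image fun g i => D.x (g i) + (j : ℕ) * D.t (g i)).card : ℝ) ≤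
      Real.exp (n * D.α j) := fun j => kraft (D.V j) (D.κ j) (D.kr j) _ fun a ha => by
    obtain ⟨g, hg, rfl⟩ := mem_image.1 ha
    exact ⟨fun i => D.mem j _, hG g hg (.inl j)⟩
  have g2 : ∀ g ∈ G, ∏ i, D.w (g i) ≤ Real.exp (-(n * D.β)) := fun g hg => by
    refine (prod_le_prod (fun i _ => D.w0 _) fun i _ => D.wh _).trans ?_
    rw [← Real.exp_sum]
    simpa using hG g hg (.inr true)
  have g0 := g1 0
  simp only [Fin.val_zero, Nat.cast_zero, zero_mul, add_zero] at g0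
  set Y := G.image fun g i => D.x (g i) with hY
  have g3 : ∀ ξ ∈ Y, ∑ g ∈ G with (fun i => D.x (g i)) = ξ, ∏ i, D.w (g i) ≤
      Real.exp (-(n * D.β₀)) := fun ξ hξ => by
    obtain ⟨g, hg, rfl⟩ := mem_image.1 hξ
    refine (sum_le_sum_of_subset_of_nonneg (t := Fintype.piFinset fun i =>
      univ.filter fun s => D.x s = D.x (g i)) (fun g' hg' => Fintype.mem_piFinset.2 fun i =>
        mem_filter.2 ⟨mem_univ _, congrFun (mem_filter.1 hg').2 i⟩)
      fun g' _ _ => prod_nonneg fun i _ => D.w0 _).trans ?_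
    rw [← prod_univ_sum (fun i => univ.filter fun s => D.x s = D.x (g i)) fun _ s => D.w s]
    refine (prod_le_prod (fun i _ => sum_nonneg fun s _ => D.w0 _)
      fun i _ => D.wh₀ _ (by simpa using D.mem 0 (g i))).trans ?_
    rw [← Real.exp_sum]
    simpa using hG g hg (.inr false)
  refine ⟨G, Y.filter fun ξ => Real.exp (n * (D.β - D.α 0)) ≤
    4 * (G.filter fun g => (fun i => D.x (g i)) = ξ).card, ?_, ?_,
    fun ξ hξ => (mem_filter.1 hξ).2, g1⟩
  · rw [← sum_fiberwise_of_maps_to (s := G) (t := Y) (g := fun g i => D.x (g i))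
      fun g hg => mem_image_of_mem _ hg, ← sum_filter_add_sum_filter_not Y fun ξ =>
        Real.exp (n * (D.β - D.α 0)) ≤ 4 * (G.filter fun g => (fun i => D.x (g i)) = ξ).card] at hn
    have e1 := sum_le_card_nsmul (Y.filter fun ξ => Real.exp (n * (D.β - D.α 0)) ≤
      4 * (G.filter fun g => (fun i => D.x (g i)) = ξ).card) _ _ fun ξ hξ => g3 ξ (mem_filter.1 hξ).1
    have e2 := sum_le_card_nsmul (Y.filter fun ξ => ¬ Real.exp (n * (D.β - D.α 0)) ≤
      4 * (G.filter fun g => (fun i => D.x (g i)) = ξ).card)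
      (fun ξ => ∑ g ∈ G with (fun i => D.x (g i)) = ξ, ∏ i, D.w (g i))
      (Real.exp (n * (D.β - D.α 0)) / 4 * Real.exp (-(n * D.β))) fun ξ hξ => by
        refine (sum_le_card_nsmul _ _ _ fun g hg => g2 g (mem_filter.1 hg).1).trans ?_
        rw [nsmul_eq_mul]
        refine mul_le_mul_of_nonneg_right ?_ (Real.exp_pos _).le
        linarith [not_le.1 (mem_filter.1 hξ).2]
    rw [nsmul_eq_mul] at e1 e2
    have e3 := e2.trans (mul_le_mul_of_nonneg_right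
      ((Nat.cast_le.2 (card_filter_le _ _)).trans g0) (by positivity))
    rw [div_mul_eq_mul_div, ← mul_div_assoc, ← Real.exp_add, ← Real.exp_add,
      show n * D.α 0 + (n * (D.β - D.α 0) + -(n * D.β)) = 0 by ring, Real.exp_zero] at e3
    have e5 := sub_le_iff_le_add.2 (hn.trans (add_le_add e1 e3))
    rw [Real.exp_neg, ← div_eq_mul_inv, le_div_iff₀ (Real.exp_pos _)] at e5
    linarith
  · exact (card_filter_le _ _).trans (card_image_le.trans ((card_le_univ G).trans (by simp)))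

end Pool.Agent.Lib.MP_cc859a_an.Lp
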